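import Pool.Agent.Q41.TB.Alg

/-!
# Toric ideals of bounded powers of edge ideals are generated by symmetric exchange binomials
-/

open Finset MvPolynomial Q41.TB

namespace Pool.Agent.Results.MP_69eae4_al.SymmetricExchange

variable (K : Type*) [Field K] {V : Type*} (G : SimpleGraph V)

/-- The edge ideal of `G` in `K[x_v : v ∈ V]`. -/
noncomputable def edgeIdeal : Ideal (MvPolynomial V K) :=
  Ideal.span {f | ∃ u v : V, G.Adj u v ∧ f = X u * X v}

/-- The ideal `(I(G)^q)_c` generated by the monomials of `I(G)^q` with exponents bounded by `c`. -/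
noncomputable def boundedPower (c : V → ℕ) (q : ℕ) : Ideal (MvPolynomial V K) :=
  Ideal.span {f | ∃ a : V →₀ ℕ, monomial a (1 : K) ∈ edgeIdeal K G ^ q ∧ (∀ v, a v ≤ c v) ∧
    f = monomial a 1}

/-- `δ_c(I(G))`, the largest `q` with `(I(G)^q)_c ≠ 0`. -/
noncomputable def delta (c : V → ℕ) : ℕ := sSup {q | boundedPower K G c q ≠ ⊥}

/-- Exponents of the minimal monomial generators of `(I(G)^δ)_c`: the monomials in this
(monomial) ideal which are minimal under divisibility. -/
noncomputable def base (c : V → ℕ) : Set (V →₀ ℕ) :=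
  {a | monomial a (1 : K) ∈ boundedPower K G c (delta K G c) ∧
    ∀ b : V →₀ ℕ, monomial b (1 : K) ∈ boundedPower K G c (delta K G c) → b ≤ a → b = a}

/-- degree vectors of `q` edges -/
def edgeSums [DecidableEq V] (q : ℕ) : Set (V →₀ ℕ) :=
  {e | ∃ M : Multiset (V × V), (∀ e ∈ M, G.Adj e.1 e.2) ∧ Multiset.card M = q ∧
    ∀ x, e x = (ep M).count x}

lemma X_mul_X (u v : V) : (X u * X v : MvPolynomial V K)
    = monomial (Finsupp.single u 1 + Finsupp.single v 1) 1 := by
  rw [X, X, monomial_mul, mul_one]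

section

variable [DecidableEq V]

lemma edge_single (u v x : V) : (Finsupp.single u 1 + Finsupp.single v 1 : V →₀ ℕ) x
    = (ep ({(u, v)} : Multiset (V × V))).count x := by
  rw [ep_singleton]
  simp only [Finsupp.add_apply, Finsupp.single_apply, Multiset.insert_eq_cons,
    Multiset.count_cons, Multiset.count_singleton, eq_comm (a := x)]
  ring

lemma pow_eq (q : ℕ) : edgeIdeal K G ^ q
    = Ideal.span ((fun e => monomial e (1 : K)) '' edgeSums G q) := by
  induction q with
  | zero =>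
    rw [pow_zero, Ideal.one_eq_top, eq_comm, Ideal.eq_top_iff_one]
    apply Ideal.subset_span
    exact ⟨0, ⟨0, by simp, by simp, by simp [ep_zero]⟩, rfl⟩
  | succ q ih =>
    rw [pow_succ, ih, edgeIdeal, Ideal.span_mul_span']
    congr 1
    ext f
    constructor
    · intro hf
      obtain ⟨g, ⟨e, ⟨M, h1, h2, h3⟩, rfl⟩, h, ⟨u, v, huv, rfl⟩, rfl⟩ := Set.mem_mul.1 hf
      refine ⟨e + (Finsupp.single u 1 + Finsupp.single v 1), ⟨M + {(u, v)}, ?_, ?_, ?_⟩, ?_⟩
      · intro e he
        rw [Multiset.mem_add, Multiset.mem_singleton] at he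
        rcases he with he | rfl
        · exact h1 e he
        · exact huv
      · simp [h2]
      · intro x
        rw [ep_add, Multiset.count_add, Finsupp.add_apply, h3, edge_single]
      · simp only [X_mul_X, monomial_mul, mul_one]
    · rintro ⟨e, ⟨M, h1, h2, h3⟩, rfl⟩
      have hM : M ≠ 0 := by
        rintro rfl
        simp at h2
      obtain ⟨⟨u, v⟩, huv⟩ := Multiset.exists_mem_of_ne_zero hM
      obtain ⟨M', rfl⟩ := Multiset.exists_cons_of_mem huv
      rw [← Multiset.singleton_add] at h1 h2 h3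
      have hle : (Finsupp.single u 1 + Finsupp.single v 1 : V →₀ ℕ) ≤ e := by
        intro x
        rw [h3, ep_add, Multiset.count_add, edge_single]
        exact Nat.le_add_right _ _
      refine Set.mem_mul.2 ⟨monomial (e - (Finsupp.single u 1 + Finsupp.single v 1)) 1,
        ⟨_, ⟨M', ?_, ?_, ?_⟩, rfl⟩, X u * X v, ⟨u, v, ?_, rfl⟩, ?_⟩
      · intro e he
        exact h1 e (Multiset.mem_add.2 (Or.inr he))
      · rw [Multiset.card_add, Multiset.card_singleton] at h2
        omega
      · intro x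
        rw [Finsupp.tsub_apply, h3, ep_add, Multiset.count_add, edge_single]
        omega
      · exact h1 (u, v) (Multiset.mem_add.2 (Or.inl (Multiset.mem_singleton_self _)))
      · rw [X_mul_X, monomial_mul, mul_one, tsub_add_cancel_of_le hle]

lemma mem_pow (q : ℕ) (a : V →₀ ℕ) :
    monomial a (1 : K) ∈ edgeIdeal K G ^ q ↔ ∃ e ∈ edgeSums G q, e ≤ a := by
  classical
  rw [pow_eq, mem_ideal_span_monomial_image]
  rw [support_monomial, if_neg one_ne_zero]
  simp

lemma mem_bounded (c : V → ℕ) (q : ℕ) (a : V →₀ ℕ) :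
    monomial a (1 : K) ∈ boundedPower K G c q ↔
      ∃ e ∈ edgeSums G q, (∀ v, e v ≤ c v) ∧ e ≤ a := by
  classical
  have h1 : boundedPower K G c q = Ideal.span ((fun e => monomial e (1 : K)) ''
      {a : V →₀ ℕ | (∃ e ∈ edgeSums G q, e ≤ a) ∧ ∀ v, a v ≤ c v}) := by
    unfold boundedPower
    congr 1
    ext f
    constructor
    · rintro ⟨a, h1, h2, rfl⟩
      exact ⟨a, ⟨(mem_pow K G q a).1 h1, h2⟩, rfl⟩
    · rintro ⟨a, ⟨h1, h2⟩, rfl⟩
      exact ⟨a, (mem_pow K G q a).2 h1, h2, rfl⟩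
  rw [h1, mem_ideal_span_monomial_image, support_monomial, if_neg one_ne_zero]
  simp only [Finset.mem_singleton, forall_eq, Set.mem_ofPred_eq]
  constructor
  · rintro ⟨b, ⟨⟨e, he, hb⟩, hc⟩, hba⟩
    exact ⟨e, he, fun v => (hb v).trans (hc v), hb.trans hba⟩
  · rintro ⟨e, he, hc, hea⟩
    exact ⟨e, ⟨⟨e, he, le_refl _⟩, hc⟩, hea⟩

lemma bounded_ne_bot (c : V → ℕ) (q : ℕ) :
    boundedPower K G c q ≠ ⊥ ↔ ∃ e ∈ edgeSums G q, ∀ v, e v ≤ c v := by
  constructor
  · intro h
    by_contra hcon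
    apply h
    unfold boundedPower
    rw [Ideal.span_eq_bot]
    rintro f ⟨a, h1, h2, rfl⟩
    obtain ⟨e, he, hea⟩ := (mem_pow K G q a).1 h1
    exact absurd ⟨e, he, fun v => (hea v).trans (h2 v)⟩ hcon
  · rintro ⟨e, he, hc⟩ hbot
    have h1 : monomial e (1 : K) ∈ boundedPower K G c q :=
      (mem_bounded K G c q e).2 ⟨e, he, hc, le_refl _⟩
    rw [hbot, Ideal.mem_bot] at h1
    exact one_ne_zero ((monomial_eq_zero).1 h1)

variable [Fintype V]

lemma sum_edgeSums (q : ℕ) (e : V →₀ ℕ) (he : e ∈ edgeSums G q) : ∑ x, e x = 2 * q := by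
  obtain ⟨M, -, h2, h3⟩ := he
  rw [Finset.sum_congr rfl (fun x _ => h3 x),
    Multiset.sum_count_eq_card (fun a _ => Finset.mem_univ a), card_ep, h2]

lemma isGreatest (c : V → ℕ) : IsGreatest {q | boundedPower K G c q ≠ ⊥} (delta K G c) := by
  have hbdd : BddAbove {q | boundedPower K G c q ≠ ⊥} := by
    refine ⟨∑ x, c x, ?_⟩
    intro q hq
    obtain ⟨e, he, hc⟩ := (bounded_ne_bot K G c q).1 hq
    have h1 := sum_edgeSums G q e he
    have h2 : ∑ x, e x ≤ ∑ x, c x := Finset.sum_le_sum fun x _ => hc x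
    omega
  have hne : {q | boundedPower K G c q ≠ ⊥}.Nonempty := by
    refine ⟨0, (bounded_ne_bot K G c 0).2 ⟨0, ⟨0, by simp, by simp, by simp [ep_zero]⟩, ?_⟩⟩
    intro v
    exact Nat.zero_le _
  exact ⟨Nat.sSup_mem hne hbdd, fun q hq => le_csSup hbdd hq⟩

lemma mem_base (c : V → ℕ) (a : V →₀ ℕ) :
    a ∈ base K G c ↔ a ∈ edgeSums G (delta K G c) ∧ ∀ v, a v ≤ c v := by
  constructor
  · rintro ⟨h1, h2⟩
    obtain ⟨e, he, hc, hea⟩ := (mem_bounded K G c _ a).1 h1
    have h3 := h2 e ((mem_bounded K G c _ e).2 ⟨e, he, hc, le_refl _⟩) hea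
    subst h3
    exact ⟨he, hc⟩
  · rintro ⟨h1, h2⟩
    refine ⟨(mem_bounded K G c _ a).2 ⟨a, h1, h2, le_refl _⟩, ?_⟩
    intro b hb hba
    obtain ⟨e, he, hc, heb⟩ := (mem_bounded K G c _ b).1 hb
    have h3 := sum_edgeSums G _ e he
    have h4 := sum_edgeSums G _ a h1
    have h5 := (Finset.sum_eq_sum_iff_of_le (fun x _ => (heb.trans hba) x)).1 (h3.trans h4.symm)
    have h6 : e = a := by
      ext x
      exact h5 x (Finset.mem_univ _)
    exact le_antisymm hba (h6 ▸ heb)

end

/-- **Theorem.** For every finite simple graph `G` without isolated vertices, every positive bound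
vector `c` and every field `K`, `δ_c` is indeed the largest `q` with `(I(G)^q)_c ≠ 0`, and the toric
ideal of the minimal monomial generating set of `(I(G)^δ)_c` is generated by its symmetric exchange
binomials. -/
theorem result (K : Type*) [Field K] (V : Type*) [Fintype V] [Nonempty V] (G : SimpleGraph V)
    (hG : ∀ v, ∃ w, G.Adj v w) (c : V → ℕ) (hc : ∀ v, 0 < c v) :
    IsGreatest {q | boundedPower K G c q ≠ ⊥} (delta K G c) ∧
      toricIdeal K (base K G c) = Ideal.span (exchangeBinomials K (base K G c)) := by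
  classical
  refine ⟨isGreatest K G c, ?_⟩
  have hgr := isGreatest K G c
  have hpos : 0 < delta K G c := by
    refine lt_of_lt_of_le Nat.zero_lt_one (hgr.2 ?_)
    obtain ⟨u⟩ := ‹Nonempty V›
    obtain ⟨v, huv⟩ := hG u
    refine (bounded_ne_bot K G c 1).2 ⟨Finsupp.single u 1 + Finsupp.single v 1,
      ⟨{(u, v)}, ?_, by simp, fun x => edge_single u v x⟩, ?_⟩
    · intro e he
      rw [Multiset.mem_singleton] at he
      subst he
      exact huv
    · intro x
      have h1 := hc x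
      have h2 := huv.ne
      rw [Finsupp.add_apply, Finsupp.single_apply, Finsupp.single_apply]
      by_cases h3 : u = x
      · subst h3
        rw [if_pos rfl, if_neg h2.symm]
        omega
      · rw [if_neg h3]
        split_ifs <;> omega
  have hmax : ∀ a, a ∉ Bas G.Adj c (delta K G c + 1) := by
    rintro a ⟨⟨M, h1, h2, h3⟩, h4⟩
    have h5 : delta K G c + 1 ∈ {q | boundedPower K G c q ≠ ⊥} :=
      (bounded_ne_bot K G c _).2 ⟨Finsupp.equivFunOnFinite.symm a, ⟨M, h1, h2, h3⟩, h4⟩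
    have := hgr.2 h5
    omega
  have hbase : {a : V → ℕ | ∃ w ∈ base K G c, ⇑w = a} = Bas G.Adj c (delta K G c) := by
    ext a
    constructor
    · rintro ⟨w, hw, rfl⟩
      obtain ⟨⟨M, h1, h2, h3⟩, h4⟩ := (mem_base K G c w).1 hw
      exact ⟨⟨M, h1, h2, h3⟩, h4⟩
    · rintro ⟨⟨M, h1, h2, h3⟩, h4⟩
      exact ⟨Finsupp.equivFunOnFinite.symm a, (mem_base K G c _).2 ⟨⟨M, h1, h2, h3⟩, h4⟩, rfl⟩
  refine toric_eq K (base K G c) (2 * delta K G c) (by omega) ?_ ?_
  · intro w hw
    exact sum_edgeSums G _ w ((mem_base K G c w).1 hw).1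
  · rw [hbase]
    intro a ha b hb
    exact pairing G.Adj c (delta K G c) hmax a b ha hb

end Pool.Agent.Results.MP_69eae4_al.SymmetricExchange
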